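import Pool.Agent.GJ.F.Loc
import Pool.Agent.GK.D.D3

/-!
# GK/F-Iso: isolating a critical place; D2 and D3 together
-/

namespace Pool.Agent.GK

open Pool.Agent.GJ MulAction Pool.Agent.H73.DU Pool.Agent.H73.AL Pool.Agent.LD Pool.Agent.TS

variable {V T : Finset ℕ}

/-- a `T`-trivial character, trivial at `P`, nontrivial at the other critical places -/
theorem exists_iso (hTp : ∀ p ∈ T, p.Prime) (h2 : 2 ∈ T) {i : ℕ}
    {H : Subgroup GQ} (hH : Ci V T i H) {P : Pl} (hP : Pin V T P) {χ : GQ → ℤˣ}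
    (hχ : GT V T i H χ) : ∃ e : GQ → ℤˣ, IsChr H e ∧ TTr T H e ∧ EqAt H P e 1 ∧
      ∀ Q : Pl, Pin V T Q → Crit i H Q → ¬ PEq H P Q → NtAt H Q e := by
  obtain ⟨ι, _, R, hR1, hR2, hR3⟩ := exists_reps V T hH.1 (fun Q => Crit i H Q ∧ ¬ PEq H P Q)
  obtain ⟨e, he1, he2, -, he3⟩ := glue (V := V) hTp h2 hH.1 (ι := Option ι)
    (fun k => k.elim P R) (fun k => by
      cases k with
      | none => exact hP
      | some k => exact (hR1 k).1)
    (fun k l hkl => by
      cases k with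
      | none =>
        cases l with
        | none => exact absurd rfl hkl
        | some l => exact (hR1 l).2.2
      | some k =>
        cases l with
        | none => exact fun h => (hR1 k).2.2 h.symm
        | some l => exact hR2 k l fun h => hkl (by rw [h]))
    (fun k => k.elim 1 fun _ => χ) (fun k => by
      cases k with
      | none => exact isChr_one hH.1
      | some k => exact hχ.chr)
  refine ⟨e, he1, he2, he3 none, fun Q hQ hc hne => ?_⟩
  obtain ⟨k, hk⟩ := hR3 Q hQ ⟨hc, hne⟩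
  rw [← ntAt_congr hk he1.1]
  obtain ⟨x, hx, hxH, h1⟩ := hχ.good (R k) (hR1 k).1 (hR1 k).2.1
  exact ⟨x, hx, hxH, by rw [he3 (some k) x hx hxH]; exact h1⟩

/-- at a place which is not critical the differences vanish -/
theorem d1P (hTp : ∀ p ∈ T, p.Prime) (h2 : 2 ∈ T) {i n B : ℕ}
    (hV : ∃ P : Pl, Pin V T P) {H : Subgroup GQ} (hH : Ci V T i H) {P : Pl} {χ χ' : GQ → ℤˣ}
    (h : Pair V T i H P χ χ') (hc : ¬ Crit i H P) (hn : n ∣ 2 * H.index)
    (hB : 16 * H.index ≤ B) : pq H χ - pq H χ' ∈ EY V T (i + 1) n B :=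
  d1 hTp h2 hV hH h.l h.r (fun Q hQ hcQ => h.eq Q hQ hcQ fun h1 => hc ((crit_congr h1).2 hcQ)) hn hB

/-- D2 and D3 -/
theorem d23 (hTp : ∀ p ∈ T, p.Prime) (h2 : 2 ∈ T) {i n B : ℕ}
    (hV : ∃ P : Pl, Pin V T P) {H H' : Subgroup GQ} (hH : Ci V T i H)
    (hH' : IsOpen (H' : Set GQ)) (hle : H' ≤ H) (hi : H' = H ∨ H'.relIndex H = 2) {P : Pl}
    (hP : Pin V T P) (hs : P.D ⊓ H ≤ H') {χ χ' η η' : GQ → ℤˣ} (h : Pair V T i H P χ χ')
    (h' : Pair V T i H' P η η') (he : EqAt H' P (χ * χ') (η * η')) (hn : n ∣ 2 * H.index)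
    (hB : 32 * H.index ≤ B) :
    (pq H χ - pq H χ') - (pq H' η - pq H' η') ∈ EY V T (i + 1) n B := by
  rcases hi with rfl | hi
  · exact d2 hTp h2 hV hH hP h h' he hn (by omega)
  · exact d3 hTp h2 hV hH hH' hle hi hP hs h h' he hn hB

end Pool.Agent.GK
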