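import Pool.Agent.GK.F.One
import Pool.Agent.GJ.F.Grp
import Pool.Agent.GK.E.E1

/-!
# GK/F-Stp: E1 and E2 for the restrictions of `1 - y`
-/

namespace Pool.Agent.GK

open Pool.Agent.GJ MulAction Pool.Agent.H73.DU Pool.Agent.H73.AL Pool.Agent.LD Pool.Agent.TS

variable {V T : Finset ℕ}

private theorem stp_core (J : Subgroup GQ) (hJ : J.index ≠ 0) :
    J.normalCore.index ≤ J.index.factorial := by
  have hfin : J.FiniteIndex := ⟨hJ⟩
  have : Finite (GQ ⧸ J) := inferInstance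
  rw [Subgroup.normalCore_eq_ker, Subgroup.index_ker]
  refine (Nat.card_le_card_of_injective _ Subtype.val_injective).trans ?_
  rw [Nat.card_perm]
  exact le_rfl

/-- the normal core of an open subgroup -/
theorem exists_core {J : Subgroup GQ} (hJ : IsOpen (J : Set GQ)) : ∃ NM : Subgroup GQ,
    NM.Normal ∧ IsOpen (NM : Set GQ) ∧ NM ≤ J ∧ NM.index ≤ J.index.factorial := by
  have h1 : Finite (GQ ⧸ J) := fin_open hJ
  have h2 : J.FiniteIndex := Subgroup.finiteIndex_of_finite_quotient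
  exact ⟨J.normalCore, Subgroup.normalCore_normal J, (nice_rat ∅).core hJ,
    Subgroup.normalCore_le J, stp_core J h2.index_ne_zero⟩

theorem kr_idx_le {H : Subgroup GQ} {χ : GQ → ℤˣ} (hχ : Mulp H χ) :
    (kr H χ).index ≤ 2 * H.index := by
  by_cases hT : Tr H χ
  · have h1 : kr H χ = H := by
      ext x
      rw [mem_kr hχ]
      exact ⟨fun h1 => h1.1, fun h1 => ⟨h1, hT x h1⟩⟩
    rw [h1]
    omega
  · rw [kr_index' hχ hT]

theorem bE_32 (m : ℕ) : 32 * m ≤ bE m := by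
  unfold bE
  have h1 : m ≤ (8 * m).factorial := (by omega : m ≤ 8 * m).trans (Nat.self_le_factorial _)
  have h2 : 2 ≤ 2 ^ (8 * m).factorial := by
    calc 2 = 2 ^ 1 := by norm_num
      _ ≤ 2 ^ (8 * m).factorial := Nat.pow_le_pow_right (by norm_num) (Nat.factorial_pos _)
  calc 32 * m = 16 * (m * 2) := by ring
    _ ≤ 16 * ((8 * m).factorial * 2 ^ (8 * m).factorial) :=
      Nat.mul_le_mul_left _ (Nat.mul_le_mul h1 h2)

theorem bE_core {m k : ℕ} (h : k ≤ (8 * m).factorial) : 4 * (k * 2 ^ k) ≤ bE m := by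
  unfold bE
  have h1 : k * 2 ^ k ≤ (8 * m).factorial * 2 ^ (8 * m).factorial :=
    Nat.mul_le_mul h (Nat.pow_le_pow_right (by norm_num) h)
  omega

/-- E1 for the restriction of `1 - y` to `kr H e` -/
theorem stp1 (hTp : ∀ p ∈ T, p.Prime) (h2 : 2 ∈ T) {i n B : ℕ}
    (hV : ∃ P : Pl, Pin V T P) {H : Subgroup GQ} (hH : Ci V T i H) {N : Subgroup GQ} [N.Normal]
    (hN : IsOpen (N : Set GQ)) (hNH : N ≤ H) {P : Pl}
    {e : GQ → ℤˣ} (he : IsChr H e)
    (hc : ∀ Q : Pl, Pin V T Q → Crit i (kr H e) Q → PEq H P Q)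
    {η : GQ → ℤˣ} (hη : GT V T i (kr H e) η) (hvg : VGood V T (kr H e) η)
    (hneg : ∀ c : GQ, IsCc c → c ∈ kr H e → η c = -1)
    (hn : n ∣ 2 * H.index) (hB : bE N.index ≤ B) [Finite (GQ ⧸ kr H e)]
    {y : Subgroup H → ℤ} (hy : y ∈ RC {J : Subgroup H | N.subgroupOf H ≤ J ∧ J ≠ ⊤})
    (hy' : ∀ d ∈ (st N H P).subgroupOf H, (2 : ℤ) ∣ 1 - y (Subgroup.zpowers d)) :
    pq (kr H e) η - iH (kr H e) (rs (kr_le H e) y * tw (kr H e) η) ∈ EY V T (i + 1) n B := by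
  have hk : IsOpen (kr (kr H e) η : Set GQ) := hη.chr.2
  have ho : IsOpen ((N ⊓ kr (kr H e) η : Subgroup GQ) : Set GQ) := by
    rw [Subgroup.coe_inf]
    exact hN.inter hk
  obtain ⟨NM, hNM1, hNM2, hNM3, hNM4⟩ := exists_core ho
  have hfi : NM.FiniteIndex := by
    have h1 : Finite (GQ ⧸ NM) := fin_open hNM2
    exact Subgroup.finiteIndex_of_finite_quotient
  have hNMN : NM ≤ N := hNM3.trans inf_le_left
  have hidx : (N ⊓ kr (kr H e) η).index ≤ 8 * N.index := by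
    have h3 : kr N e ≤ kr H e := by rw [kr_mono he.1 hNH]; exact inf_le_right
    have h1 : N ⊓ kr (kr H e) η = kr (kr N e) η := by
      have h6 := kr_mono hη.chr.1 h3
      have h7 := kr_mono he.1 hNH
      have h8 : kr (kr H e) η ≤ kr H e := kr_le _ _
      rw [h6, h7, inf_assoc, inf_eq_right.2 h8]
    rw [h1]
    have h4 := kr_idx_le (hη.chr.1.mono h3)
    have h5 := kr_idx_le (he.1.mono hNH)
    omega
  have hb : 4 * (NM.index * 2 ^ NM.index) ≤ B :=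
    (bE_core (hNM4.trans (Nat.factorial_le hidx))).trans hB
  have hx : (1 : Subgroup (kr H e) → ℤ) - rs (kr_le H e) y ∈
      RC {J : Subgroup (kr H e) | NM.subgroupOf (kr H e) ≤ J} := by
    refine AddSubgroup.sub_mem _ (AddSubgroup.subset_closure ⟨⊤, Set.mem_ofPred.2 le_top, pc_top.symm⟩) ?_
    exact rs_mem (N := NM) (kr_le H e) (C := {J : Subgroup H | N.subgroupOf H ≤ J ∧ J ≠ ⊤})
      (fun J hJ => (Subgroup.comap_mono hNMN).trans hJ.1) (hNMN.trans hNH) hy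
  have h3 := e1 hTp h2 hV (hH.mono (kr_le H e) he.2) hη hvg hneg NM hNM2
    (hNM3.trans inf_le_right) _ hx ?_
    (hn.trans (mul_dvd_mul_left 2 (Subgroup.index_dvd_of_le (kr_le H e)))) hb
  · rw [sub_mul, one_mul, map_sub, ← pq_eq (kr H e) hη.chr.1] at h3
    exact h3
  · intro Q hQ hcQ d hd _
    rw [Pi.sub_apply, Pi.one_apply, rs_zp]
    obtain ⟨b, hb', hbD⟩ := (hc Q hQ hcQ).D
    have hd' : b⁻¹ * (d : GQ) * b ∈ P.D := by
      rw [hbD, mem_cjF, inv_inv] at hd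
      exact hd
    have hdH : b⁻¹ * (d : GQ) * b ∈ H := H.mul_mem (H.mul_mem (H.inv_mem hb') d.2.1) hb'
    have h4 := hy' ⟨b⁻¹ * (d : GQ) * b, hdH⟩ (Subgroup.mem_subgroupOf.2 (dH_le_st ⟨hd', hdH⟩))
    have h5 := rc_conj hy (⟨b, hb'⟩ : H) ⟨b⁻¹ * (d : GQ) * b, hdH⟩
    have h6 : (⟨b, hb'⟩ : H) * ⟨b⁻¹ * (d : GQ) * b, hdH⟩ * (⟨b, hb'⟩ : H)⁻¹ =
        ⟨(d : GQ), kr_le H e d.2⟩ := by
      apply Subtype.ext
      change b * (b⁻¹ * (d : GQ) * b) * b⁻¹ = d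
      group
    rw [h6] at h5
    rw [h5]
    exact h4

/-- E2 for the restriction of `1 - y` to `H*` -/
theorem stp2 (hTp : ∀ p ∈ T, p.Prime) (h2 : 2 ∈ T) {i n B : ℕ}
    (hV : ∃ P : Pl, Pin V T P) {H : Subgroup GQ} (hH : Ci V T i H) {N : Subgroup GQ} [N.Normal]
    (hN : IsOpen (N : Set GQ)) (hNH : N ≤ H) {P : Pl}
    {ω : GQ → ℤˣ} (hω : GT V T i (st N H P) ω)
    (hn : n ∣ 2 * H.index) (hB : bE N.index ≤ B) [Finite (GQ ⧸ st N H P)]
    {y : Subgroup H → ℤ} (hy : y ∈ RC {J : Subgroup H | N.subgroupOf H ≤ J ∧ J ≠ ⊤})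
    (hy' : ∀ d ∈ (st N H P).subgroupOf H, (2 : ℤ) ∣ 1 - y (Subgroup.zpowers d)) :
    pq (st N H P) ω - iH (st N H P) (rs (st_le hNH) y * tw (st N H P) ω) ∈
      EY V T (i + 1) n B := by
  have hfi : N.FiniteIndex := by
    have h1 : Finite (GQ ⧸ N) := fin_open hN
    exact Subgroup.finiteIndex_of_finite_quotient
  have hb := bE_32 N.index
  have hx : (1 : Subgroup (st N H P) → ℤ) - rs (st_le hNH) y ∈
      RC {J : Subgroup (st N H P) | N.subgroupOf (st N H P) ≤ J} := by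
    refine AddSubgroup.sub_mem _ (AddSubgroup.subset_closure ⟨⊤, Set.mem_ofPred.2 le_top, pc_top.symm⟩) ?_
    exact rs_mem (N := N) (st_le hNH) (C := {J : Subgroup H | N.subgroupOf H ≤ J ∧ J ≠ ⊤})
      (fun J hJ => hJ.1) hNH hy
  have h3 := e2 (B := B) hTp h2 hV (hH.mono (st_le hNH) (st_open hN)) hω N hN le_st _ hx ?_
    (hn.trans (mul_dvd_mul_left 2 (Subgroup.index_dvd_of_le (st_le hNH)))) (by omega)
  · rw [sub_mul, one_mul, map_sub, ← pq_eq (st N H P) hω.chr.1] at h3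
    exact h3
  · intro t
    rw [Pi.sub_apply, Pi.one_apply, rs_zp]
    exact hy' _ (Subgroup.mem_subgroupOf.2 t.2)

end Pool.Agent.GK
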