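import Pool.Agent.GK.F.Stp
import Pool.Agent.GK.Neg

/-!
# GK/F-Thm: the differences only depend on the local field (paper F)

`(P.D ⊓ H) ⊔ N` is the subgroup `H*` of the paper.
-/

namespace Pool.Agent.GK

open Pool.Agent.GJ MulAction Pool.Agent.H73.DU Pool.Agent.H73.AL Pool.Agent.LD Pool.Agent.TS

private theorem thm_lt {N K H : Subgroup GQ} (hN : IsOpen (N : Set GQ)) (hNK : N ≤ K) (hKH : K ≤ H)
    (hne : K ≠ H) : N.relIndex K < N.relIndex H := by
  have h1 : Finite (GQ ⧸ N) := fin_open hN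
  have h2 : N.FiniteIndex := Subgroup.finiteIndex_of_finite_quotient
  have h3 := Subgroup.relIndex_mul_relIndex N K H hNK hKH
  have h4 : N.relIndex H ≠ 0 :=
    (inferInstance : (N.subgroupOf H).FiniteIndex).index_ne_zero
  have h5 : K.relIndex H ≠ 1 := fun h => hne (le_antisymm hKH (Subgroup.relIndex_eq_one.1 h))
  rw [← h3] at h4 ⊢
  have h6 := left_ne_zero_of_mul h4
  have h7 := right_ne_zero_of_mul h4
  have h8 : 2 ≤ K.relIndex H := by omega
  nlinarith [Nat.pos_of_ne_zero h6]

theorem thmF0 {V T : Finset ℕ} (hTp : ∀ p ∈ T, p.Prime) (h2 : 2 ∈ T) {i n B : ℕ}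
    (hV : ∃ P : Pl, Pin V T P) (N : Subgroup GQ) [N.Normal]
    (hN : IsOpen (N : Set GQ)) (hB : bE N.index ≤ B) (m : ℕ) : ∀ H : Subgroup GQ, Ci V T i H →
      N ≤ H → N.relIndex H = m → n ∣ 2 * H.index → ∀ P : Pl, Pin V T P →
      ∀ χ χ' ω ω' : GQ → ℤˣ, Pair V T i H P χ χ' → Pair V T i (st N H P) P ω ω' →
      EqAt H P (χ * χ') (ω * ω') →
      (pq H χ - pq H χ') - (pq (st N H P) ω - pq (st N H P) ω') ∈ EY V T (i + 1) n B := by
  induction m using Nat.strong_induction_on with
  | _ m IH =>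
  intro H hH hNH hm hn P hP χ χ' ω ω' h h' he
  have hb := bE_32 N.index
  have hfN : N.FiniteIndex := by
    have h1 : Finite (GQ ⧸ N) := fin_open hN
    exact Subgroup.finiteIndex_of_finite_quotient
  have hbH := idx_le hN hNH
  have hbS := idx_le hN (le_st (N := N) (H := H) (P := P))
  have hS : Ci V T i (st N H P) := hH.mono (st_le hNH) (st_open hN)
  by_cases hc : Crit i H P
  swap
  · -- not critical
    have h4 : ¬ Crit i (st N H P) P := fun h5 => hc ((crit_eq (d_st hNH)).1 h5)
    exact AddSubgroup.sub_mem _ (d1P hTp h2 hV hH h hc hn (by omega))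
      (d1P hTp h2 hV hS h' h4
        (hn.trans (mul_dvd_mul_left 2 (Subgroup.index_dvd_of_le (st_le hNH)))) (by omega))
  -- a subgroup of index 2
  have stepK : ∀ K : Subgroup GQ, K ≤ H → K.relIndex H = 2 → st N H P ≤ K →
      (pq H χ - pq H χ') - (pq (st N H P) ω - pq (st N H P) ω') ∈ EY V T (i + 1) n B := by
    intro K hKH hi hSK
    have hNK : N ≤ K := le_st.trans hSK
    have hKo : IsOpen (K : Set GQ) := Subgroup.isOpen_mono hNK hN
    have hDK : P.D ⊓ H ≤ K := dH_le_st.trans hSK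
    have hDD : P.D ⊓ K = P.D ⊓ H :=
      le_antisymm (inf_le_inf_left _ hKH) (le_inf inf_le_left hDK)
    have hK : Ci V T i K := hH.mono hKH hKo
    obtain ⟨η, η', hp, ha, ha', -⟩ := exists_pair (V := V) hTp h2 hK hP
      (h.l.chr.mono hKH hKo) (h.r.chr.mono hKH hKo)
      ((h.l.good P hP hc).of hDK) ((h.r.good P hP hc).of hDK)
    have k1 := d3 (B := B) hTp h2 hV hH hKo hKH hi hP hDK h hp (ha.mul ha').symm hn (by omega)
    have hst : st N K P = st N H P := st_congr hDD
    have hlt : N.relIndex K < m := by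
      rw [← hm]
      refine thm_lt hN hNK hKH fun h3 => ?_
      rw [h3, Subgroup.relIndex_self] at hi
      omega
    have k2 := IH _ hlt K hK hNK rfl
      (hn.trans (mul_dvd_mul_left 2 (Subgroup.index_dvd_of_le hKH))) P hP η η' ω ω' hp
      (by rw [hst]; exact h') ((ha.mul ha').trans (he.mono hKH))
    rw [hst] at k2
    have k3 := AddSubgroup.add_mem _ k1 k2
    have e1 : ∀ a b c : Subgroup GQ → ℤ, a - c = (a - b) + (b - c) := fun a b c => by abel
    rw [e1 _ (pq K η - pq K η') _]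
    exact k3
  have hfi : (N.subgroupOf H).FiniteIndex := inferInstance
  have hno : (N.subgroupOf H).Normal := inferInstance
  rcases grp_lem (N.subgroupOf H) ((st N H P).subgroupOf H) (Subgroup.comap_mono le_st) with
    h1 | ⟨M, hM, hDM⟩ | ⟨y, hy, hy'⟩
  · -- `H* = H`
    have h3 : st N H P = H := le_antisymm (st_le hNH) (Subgroup.subgroupOf_eq_top.1 h1)
    rw [h3] at h' ⊢
    exact d2 hTp h2 hV hH hP h h' he hn (by omega)
  · -- a subgroup of index 2 over `H*`
    refine stepK (M.map H.subtype) (Subgroup.map_subtype_le M) ?_ ?_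
    · unfold Subgroup.relIndex
      rw [Subgroup.subgroupOf, Subgroup.comap_map_eq_self_of_injective H.subtype_injective]
      exact hM
    · intro x hx
      exact ⟨⟨x, st_le hNH hx⟩, hDM (Subgroup.mem_subgroupOf.2 hx), rfl⟩
  · obtain ⟨e, he1, -, he3, he4⟩ := exists_iso hTp h2 hH hP h.l
    by_cases hNe : ¬ Tr H e ∧ Tr N e
    · -- `N ≤ ker e`
      refine stepK (kr H e) (kr_le H e) (kr_index he1.1 hNe.1) (sup_le ?_ ?_)
      · rintro x ⟨hx, hxH⟩
        exact (mem_kr he1.1).2 ⟨hxH, he3 x hx hxH⟩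
      · intro x hx
        exact (mem_kr he1.1).2 ⟨hNH hx, hNe.2 x hx⟩
    · have heN : Tr H e ∨ ¬ Tr N e := by tauto
      have hDk : P.D ⊓ H ≤ kr H e := by
        rintro x ⟨hx, hxH⟩
        exact (mem_kr he1.1).2 ⟨hxH, he3 x hx hxH⟩
      have hK : Ci V T i (kr H e) := hH.mono (kr_le H e) he1.2
      have hf1 : Finite (GQ ⧸ kr H e) := fin_open he1.2
      have hf2 : Finite (GQ ⧸ st N H P) := fin_open (st_open hN)
      have hcr : ∀ Q : Pl, Pin V T Q → Crit i (kr H e) Q → PEq H P Q := by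
        intro Q hQ hcQ
        by_contra h3
        exact crit_kr hH he1 hQ (he4 Q hQ (hcQ.mono (kr_le H e) he1.2) h3) hcQ
      obtain ⟨η, η', hp, ha, ha', hv, hv', hng, hng'⟩ := exists_pair_neg (V := V) hTp h2 hK hP
        (h.l.chr.mono (kr_le H e) he1.2) (h.r.chr.mono (kr_le H e) he1.2)
        ((h.l.good P hP hc).of hDk) ((h.r.good P hP hc).of hDk)
      have k1 := d23 (B := B) hTp h2 hV hH he1.2 (kr_le H e)
        (kr_dich he1 le_rfl (by
          rcases heN with h3 | h3
          · exact Or.inl h3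
          · exact Or.inr fun h4 => h3 fun x hx => h4 x (hNH hx))) hP hDk h hp
        (ha.mul ha').symm hn (by omega)
      have k2 := stp1 hTp h2 hV hH hN hNH he1 hcr hp.l hv hng hn hB hy hy'
      have k2' := stp1 hTp h2 hV hH hN hNH he1 hcr hp.r hv' hng' hn hB hy hy'
      have k3 := stp2 hTp h2 hV hH hN hNH h'.l hn hB hy hy'
      have k3' := stp2 hTp h2 hV hH hN hNH h'.r hn hB hy hy'
      have k4 : (iH (kr H e) (rs (kr_le H e) y * tw (kr H e) η) -
          iH (kr H e) (rs (kr_le H e) y * tw (kr H e) η')) -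
          (iH (st N H P) (rs (st_le hNH) y * tw (st N H P) ω) -
          iH (st N H P) (rs (st_le hNH) y * tw (st N H P) ω')) ∈ EY V T (i + 1) n B := by
        clear hy' k2 k2' k3 k3'
        unfold RC at hy
        induction hy using AddSubgroup.closure_induction with
        | mem f hf =>
          obtain ⟨J', ⟨hJ1, hJ2⟩, rfl⟩ := hf
          have h3 : (J'.map H.subtype).subgroupOf H = J' := by
            rw [Subgroup.subgroupOf, Subgroup.comap_map_eq_self_of_injective H.subtype_injective]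
          have hNJ : N ≤ J'.map H.subtype := fun x hx =>
            ⟨⟨x, hNH hx⟩, hJ1 (Subgroup.mem_subgroupOf.2 hx), rfl⟩
          have hJH : J'.map H.subtype ≤ H := Subgroup.map_subtype_le J'
          rw [← h3]
          refine stepJ hTp h2 hV hH hN hNH hP h.l h.r h' he he1 he3 heN hp (ha.mul ha') hn
            (by omega) hNJ hJH fun g hg α α' hα hαω => ?_
          have hJH' := cj_leH hJH hg
          have hNJ' := le_cjN hNJ g
          refine IH _ ?_ (cj g (J'.map H.subtype)) (hH.mono hJH' (Subgroup.isOpen_mono hNJ' hN))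
            hNJ' rfl (hn.trans (mul_dvd_mul_left 2 (Subgroup.index_dvd_of_le hJH'))) P hP α α' ω ω'
            hα (h'.st hN hNH hH hNJ' hJH') hαω
          rw [← hm]
          refine thm_lt hN hNJ' hJH' fun h4 => hJ2 ?_
          rw [← h3, Subgroup.subgroupOf_eq_top]
          intro x hx
          have h5 : g⁻¹ * x * g ∈ cj g (J'.map H.subtype) := by
            rw [h4]
            exact H.mul_mem (H.mul_mem (H.inv_mem hg) hx) hg
          have h6 := mem_cjF.1 h5
          have h7 : g * (g⁻¹ * x * g) * g⁻¹ = x := by group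
          rwa [h7] at h6
        | zero =>
          have h3 : ∀ (K L : Subgroup GQ) (hL : L ≤ K), rs hL (0 : Subgroup K → ℤ) = 0 :=
            fun K L hL => rfl
          rw [h3, h3, zero_mul, zero_mul, zero_mul, zero_mul, map_zero, map_zero, sub_zero, sub_zero]
          exact AddSubgroup.zero_mem _
        | add x z _ _ hx hz =>
          have h3 : ∀ (K L : Subgroup GQ) (hL : L ≤ K) (a b : Subgroup K → ℤ),
            rs hL (a + b) = rs hL a + rs hL b := fun K L hL a b => rfl
          rw [h3, h3, add_mul, add_mul, add_mul, add_mul, map_add, map_add, map_add, map_add]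
          have h4 := AddSubgroup.add_mem _ hx hz
          have e1 : ∀ a b c d a' b' c' d' : Subgroup GQ → ℤ,
            ((a + a') - (b + b')) - ((c + c') - (d + d')) =
              ((a - b) - (c - d)) + ((a' - b') - (c' - d')) :=
            fun a b c d a' b' c' d' => by abel
          rw [e1]
          exact h4
        | neg x _ hx =>
          have h3 : ∀ (K L : Subgroup GQ) (hL : L ≤ K) (a : Subgroup K → ℤ),
            rs hL (-a) = -rs hL a := fun K L hL a => rfl
          rw [h3, h3, neg_mul, neg_mul, neg_mul, neg_mul, map_neg, map_neg, map_neg, map_neg]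
          have h4 := AddSubgroup.neg_mem _ hx
          have e1 : ∀ a b c d : Subgroup GQ → ℤ,
            ((-a) - (-b)) - ((-c) - (-d)) = -((a - b) - (c - d)) := fun a b c d => by abel
          rw [e1]
          exact h4
      have k5 := AddSubgroup.add_mem _ (AddSubgroup.add_mem _ k1 (AddSubgroup.sub_mem _ k2 k2'))
        (AddSubgroup.sub_mem _ k4 (AddSubgroup.sub_mem _ k3 k3'))
      have e1 : ∀ a b c d s s' u u' v v' : Subgroup GQ → ℤ, (a - b) - (c - d) =
        (((a - b) - (s - s')) + ((s - u) - (s' - u'))) +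
          (((u - u') - (v - v')) - ((c - v) - (d - v'))) :=
        fun a b c d s s' u u' v v' => by abel
      rw [e1 _ _ _ _ (pq (kr H e) η) (pq (kr H e) η')
        (iH (kr H e) (rs (kr_le H e) y * tw (kr H e) η))
        (iH (kr H e) (rs (kr_le H e) y * tw (kr H e) η'))
        (iH (st N H P) (rs (st_le hNH) y * tw (st N H P) ω))
        (iH (st N H P) (rs (st_le hNH) y * tw (st N H P) ω'))]
      exact k5

theorem thmF {V T : Finset ℕ} (hTp : ∀ p ∈ T, p.Prime) (h2 : 2 ∈ T) {i n B : ℕ}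
    (hV : ∃ P : Pl, Pin V T P) {H : Subgroup GQ} (hH : Ci V T i H) (N : Subgroup GQ) [N.Normal]
    (hN : IsOpen (N : Set GQ)) (hNH : N ≤ H) {P : Pl}
    (hP : Pin V T P) {χ χ' ω ω' : GQ → ℤˣ} (h : Pair V T i H P χ χ')
    (h' : Pair V T i ((P.D ⊓ H) ⊔ N) P ω ω')
    (he : EqAt H P (χ * χ') (ω * ω')) (hn : n ∣ 2 * H.index) (hB : bE N.index ≤ B) :
    (pq H χ - pq H χ') - (pq ((P.D ⊓ H) ⊔ N) ω - pq ((P.D ⊓ H) ⊔ N) ω') ∈
      EY V T (i + 1) n B :=
  thmF0 hTp h2 hV N hN hB _ H hH hNH rfl hn P hP χ χ' ω ω' h h' he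

theorem bE_mono {a b : ℕ} (h : a ≤ b) : bE a ≤ bE b := by
  unfold bE
  have h1 : (8 * a).factorial ≤ (8 * b).factorial := Nat.factorial_le (by omega)
  exact Nat.mul_le_mul_left _ (Nat.mul_le_mul h1 (Nat.pow_le_pow_right (by norm_num) h1))

/-- corollary F' -/
theorem corF {V T : Finset ℕ} (hTp : ∀ p ∈ T, p.Prime) (h2 : 2 ∈ T) {i n B : ℕ}
    (hV : ∃ P : Pl, Pin V T P) {H K : Subgroup GQ} (hH : Ci V T i H) (hK : Ci V T i K) {P : Pl}
    (hP : Pin V T P) (hHK : P.D ⊓ H = P.D ⊓ K) {χ χ' ω ω' : GQ → ℤˣ} (h : Pair V T i H P χ χ')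
    (h' : Pair V T i K P ω ω') (he : EqAt H P (χ * χ') (ω * ω')) (hn : n ∣ 2 * H.index)
    (hn' : n ∣ 2 * K.index) (hB : bE (H.index * K.index).factorial ≤ B) :
    (pq H χ - pq H χ') - (pq K ω - pq K ω') ∈ EY V T (i + 1) n B := by
  have ho : IsOpen ((H ⊓ K : Subgroup GQ) : Set GQ) := by
    rw [Subgroup.coe_inf]
    exact hH.1.inter hK.1
  obtain ⟨N, hN1, hN2, hN3, hN4⟩ := exists_core ho
  have hNH : N ≤ H := hN3.trans inf_le_left
  have hNK : N ≤ K := hN3.trans inf_le_right
  have hB' : bE N.index ≤ B :=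
    (bE_mono (hN4.trans (Nat.factorial_le Subgroup.index_inf_le))).trans hB
  have hb := bE_32 N.index
  have hbH := idx_le hN2 hNH
  have hbK := idx_le hN2 hNK
  by_cases hc : Crit i H P
  · have hstc : st N H P = st N K P := st_congr hHK
    have hS : Ci V T i (st N H P) := hH.mono (st_le hNH) (st_open hN2)
    have hcS : Crit i (st N H P) P := (crit_eq (d_st hNH)).2 hc
    obtain ⟨ζ, ζ', hp, ha, ha', -⟩ := exists_pair (V := V) hTp h2 hS hP
      (h.l.chr.mono (st_le hNH) (st_open hN2)) (h.r.chr.mono (st_le hNH) (st_open hN2))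
      ((h.l.good P hP hc).of dH_le_st) ((h.r.good P hP hc).of dH_le_st)
    have k0 : EqAt H P (χ * χ') (ζ * ζ') := (ha.mul ha').symm.of (by
      rw [← d_st hNH (P := P)]
      exact inf_le_right)
    have k1 := thmF0 hTp h2 hV N hN2 hB' _ H hH hNH rfl hn P hP χ χ' ζ ζ' h hp k0
    have k2 := thmF0 hTp h2 hV N hN2 hB' _ K hK hNK rfl hn' P hP ω ω' ζ ζ' h'
      (by rw [← hstc]; exact hp) ((he.symm.trans k0).of (by rw [← hHK]; exact inf_le_right))
    rw [← hstc] at k2
    have k3 := AddSubgroup.sub_mem _ k1 k2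
    have e1 : ∀ a b c : Subgroup GQ → ℤ, a - c = (a - b) - (c - b) := fun a b c => by abel
    rw [e1 _ (pq (st N H P) ζ - pq (st N H P) ζ') _]
    exact k3
  · have hc' : ¬ Crit i K P := fun h5 => hc ((crit_eq hHK).2 h5)
    exact AddSubgroup.sub_mem _ (d1P hTp h2 hV hH h hc hn (by omega))
      (d1P hTp h2 hV hK h' hc' hn' (by omega))

end Pool.Agent.GK
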